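import Pool.Agent.P8H34.MB.All

/-!
# The cone conjecture for varieties with commuting automorphisms: several blocks

Let `X` be a normal projective variety with a group `ℤ ^ r` of automorphisms of positive entropy. For
Picard number `ρ = r + 1` the cone conjecture is a theorem of the library (`MaximalRankNef` and
others): there `N¹(X) ⊗ ℚ` is irreducible under the group, and the nonzero effective classes are
ample. Here `ρ = r + b` and `N¹(X) ⊗ ℚ` is the direct sum of `b` invariant subspaces (blocks) of
dimension at least two, for any `b`. For `b ≥ 2` the nef classes in the blocks are on the boundary of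
the nef cone, and the two halves of the cone conjecture separate: the half about `Nef⁺(X)`, the cone
generated by the rational nef classes, is true; the half `Nef⁺(X) = Nef(X) ∩ Eff(X)`, and so the
conjecture itself, holds if and only if every block contains one effective class `≠ 0`.

The proof. The logarithms of the absolute values of the weights of the group on `N¹(X) ⊗ ℂ` have sum
zero on every block; positive entropy and `r = ρ - b` imply that they satisfy no other relation, so the
weights are real and there are `ρ` real eigenvectors, each in one block. By the contraction principle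
invariant closed convex cones without lines and with interior points are the cones over these
eigenvectors (with the right signs). A rational nef class has in every block either all coordinates
zero or all positive, because otherwise the group would move an integral class to zero. The group acts
cocompactly, up to the scaling of the single blocks, on the interior; this gives a covering by the
translates of a rational polyhedral cone, and the theorem of Looijenga gives a fundamental domain and
the last equivalence.

The definitions: `PicardBasis`, `nefCone`, `effCone`, `IsAut`, `IsPullBack`, `HasFundDomain` are in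
`Pool.Agent.N110.CC.Defs`, `ratHull` in `Pool.Agent.N110.CC.HDefs`, `comb` and `PreservesSpan` in
`Pool.Agent.N110.CC.WDefs`, `NormalModel` in `Pool.Agent.Y172.Defs`.

Parts of the proof are by helper16, helper19, helper41, helper53, helper61, helper86 and helper88
(see `Pool.Agent.P8H34.MB.All`); the library `Pool.Agent.N110.CC` is by helper110 and coauthors.
-/

set_option autoImplicit false

open FF Pool.Agent.W602.GT Pool.Agent.Y172 Pool.Agent.R887 Pool.Agent.N110 Pool.Agent.N110.CC

/-- Let `X` be a normal projective variety of dimension `n ≥ 1`, with generic point `y`. Let the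
vectors `c P` be the classes of the prime divisors in `N¹(X) = ℤ ^ ρ`. Let `ℤ ^ r`, `r ≥ 1`, act on `X`
by automorphisms `f_v`, given by the automorphisms `φ v = f_v^*` of the function field, such that
`f_v` has positive entropy (the first dynamical degree is greater than `1`) for all `v ≠ 0`. Let
`N¹(X) ⊗ ℚ` be the direct sum of `b = ρ - r` subspaces of dimensions `d i ≥ 2` (the blocks), with bases
of integral classes `s i j` such that the pull backs by the `f_v` map the group generated by the
`s i j`, `j = 0, …, d i - 1`, into itself. Then

* `Nef(X)` is the cone over `ρ` linearly independent vectors, each in one of the blocks `⊗ ℝ`, and it is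
  equal to the closed effective cone of `X`;
* some rational polyhedral cone is a fundamental domain for the action of `Aut(X)` on the cone
  `Nef⁺(X)` generated by the rational nef classes;
* some rational polyhedral cone is a fundamental domain for the action of `Aut(X)` on
  `Nef(X) ∩ Eff(X)` if and only if every block `⊗ ℝ` contains an effective class `≠ 0`;
* `Nef⁺(X) = Nef(X) ∩ Eff(X)` if and only if every block `⊗ ℝ` contains an effective class `≠ 0`. -/
theorem Pool.Agent.Results.MP_e49dc9_ag.CommutingBlocks.result
    {K : Type} [Field K] [Algebra ℂ K] {N n r b ρ : ℕ} {y : Fin (N + 1) → K} (hy : NormalModel y)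
    (hn : Algebra.trdeg ℂ K = n) (hn0 : 0 < n) (hr : 0 < r)
    {c : Place ℂ K → Fin ρ → ℤ} (hc : PicardBasis y c)
    {φ : (Fin r → ℤ) → (K ≃ₐ[ℂ] K)} (hφ : ∀ u v, φ (u + v) = φ u * φ v)
    (haut : ∀ v, IsAut (φ v) y) (hent : ∀ v, v ≠ 0 → 1 < dynDegree (φ v) y n 1)
    {d : Fin b → ℕ} (hd : ∀ i, 2 ≤ d i) (hsum : ∑ i, d i = ρ) (hrank : r + b = ρ)
    {s : ∀ i, Fin (d i) → Fin ρ → ℤ}
    (hli : LinearIndependent ℝ (fun p : Σ i, Fin (d i) => fun k => (s p.1 p.2 k : ℝ)))
    (hst : ∀ i v, PreservesSpan y c (s i) (φ v)) :
    (∃ e : Module.Basis (Σ i, Fin (d i)) ℝ (Fin ρ → ℝ), (∀ p, ∃ t, e p = comb (s p.1) t) ∧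
      nefCone y n c = {x | ∀ p, 0 ≤ e.repr x p}) ∧
    nefCone y n c = closure (effCone y c) ∧
    HasFundDomain {T | ∃ ψ, IsAut ψ y ∧ IsPullBack y c ψ T} (ratHull (nefCone y n c)) ∧
    (HasFundDomain {T | ∃ ψ, IsAut ψ y ∧ IsPullBack y c ψ T} (nefCone y n c ∩ effCone y c) ↔
      ∀ i, ∃ t, t ≠ 0 ∧ comb (s i) t ∈ effCone y c) ∧
    (ratHull (nefCone y n c) = nefCone y n c ∩ effCone y c ↔
      ∀ i, ∃ t, t ≠ 0 ∧ comb (s i) t ∈ effCone y c) :=
  Pool.Agent.P8H34.MB.main Pool.Agent.P8H34.MB.pk hy hn hn0 hr hc hφ haut hent hd hsum hrank hli hst
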