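import Pool.Agent.P8H34.Main

/-!
# The cone conjecture descends to quotients by finite groups

The nef cone conjecture for a variety `X'` implies the conjecture for all its quotients `X = X' / Φ`
by finite groups. No condition on the order of the group is needed, and the quotient map may be
ramified.

The proof. The norm of a base point free (effective) divisor on `X'` is a base point free (effective)
divisor on `X`; so the pull back identifies `N¹(X)` with the space of the invariant classes in `N¹(X')`,
and a class on `X` is nef (effective) if and only if its pull back is. Let `x` be an invariant class in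
the interior of the nef cone of `X'`. It is moved by an automorphism `g` of `X'` into a fixed cone `Π`,
generated by finitely many nef and effective integral classes, and then it is fixed by `g Φ g⁻¹`. Only
finitely many elements of the image of `Aut(X')` in `GL(N¹(X'))` fix an interior class in `Π`. So the
homomorphisms `φ ↦ g φ g⁻¹` from `Φ` to `Aut(X')` give finitely many homomorphisms to `Aut(X') / D`,
where `D` is a group as in the definition `KernelType`; a calculation with cocycles with values in `D`
shows that they form finitely many classes under conjugation by elements of `D`, which act trivially on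
the classes. Hence the centraliser of `Φ` moves `x` into the union of finitely many cones. The
automorphisms of `X'` which commute with `Φ` give automorphisms of `X`.

The definitions `IsGal`, `IsQuot`, `KernelType` are in `Pool.Agent.P8H34.Defs`; `PicardBasis`,
`effCone`, `nefCone`, `IsPullBack`, `IsAut` and `HasFundDomain` in `Pool.Agent.N110.CC.Defs`;
`FiniteMap` in `Pool.Agent.N110.CC.RDefs`; `NormalModel`, `localRing` and `IsPrimeDivisor` in
`Pool.Agent.Y172.Defs`; `LiesOver` in `Pool.Agent.R887.Defs`.
-/

set_option autoImplicit false

open FF Pool.Agent.W602.GT Pool.Agent.Y172 Pool.Agent.R887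
open Pool.Agent.N110 Pool.Agent.N110.CC Pool.Agent.P8H34

/-- Let `X'` be a normal projective variety of dimension `n ≥ 1` (with generic point `y'`) whose nef cone
has interior points in `N¹(X') = ℝ ^ ρ'`, for instance a smooth or `ℚ`-factorial variety. Let `Φ` be a
finite group of automorphisms of `X'` and let `X = X' / Φ` (with generic point `y`). The vectors `c P` and
`c' Q` are the classes of the prime divisors in `N¹(X) = ℝ ^ ρ` and `N¹(X') = ℝ ^ ρ'`.

Suppose that the group of the automorphisms of `X'` which act trivially on `N¹(X')` has a normal
subgroup `D` of finite index, normal in `Aut(X')`, which is commutative and divisible with finitely many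
elements of each order. For instance, `D` is trivial, if only finitely many automorphisms act trivially
on `N¹(X')`. If `X'` is a smooth projective variety with numerically trivial canonical class then the
connected component `D` of the automorphism group, an abelian variety, has these properties.

If some rational polyhedral cone is a fundamental domain for the action of `Aut(X')` on the cone
`Nef(X')^e = Nef(X') ∩ Eff(X')`, then some rational polyhedral cone is a fundamental domain for the
action of `Aut(X)` on `Nef(X)^e = Nef(X) ∩ Eff(X)`. -/
theorem Pool.Agent.Results.MP_e49dc9_ag.GaloisQuotients.result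
    {K K' : Type} [Field K] [Algebra ℂ K] [Field K'] [Algebra ℂ K'] {N N' n ρ ρ' : ℕ}
    {y : Fin (N + 1) → K} {y' : Fin (N' + 1) → K'} (hy : NormalModel y) (hy' : NormalModel y')
    (hn : Algebra.trdeg ℂ K = n) (hn' : Algebra.trdeg ℂ K' = n) (hn0 : 0 < n)
    {c : Place ℂ K → Fin ρ → ℤ} (hc : PicardBasis y c)
    {c' : Place ℂ K' → Fin ρ' → ℤ} (hc' : PicardBasis y' c')
    {π : K →ₐ[ℂ] K'} {Φ : Subgroup (K' ≃ₐ[ℂ] K')} (hQ : IsQuot π Φ y y')
    (hint : (interior (nefCone y' n c')).Nonempty)
    {Aut' : Subgroup (K' ≃ₐ[ℂ] K')} (hAut' : ∀ ψ, ψ ∈ Aut' ↔ IsAut ψ y')
    {D : Subgroup (K' ≃ₐ[ℂ] K')} (hD : KernelType y' c' Aut' D)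
    (hX' : HasFundDomain {T | ∃ ψ, IsAut ψ y' ∧ IsPullBack y' c' ψ T}
      (nefCone y' n c' ∩ effCone y' c')) :
    HasFundDomain {T | ∃ ψ, IsAut ψ y ∧ IsPullBack y c ψ T} (nefCone y n c ∩ effCone y c) := by
  have h : Aut' = autGroup y' := Subgroup.ext hAut'
  subst h
  exact descend hy hy' hn hn' hn0 hc hc' hQ hint hD hX'
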