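import Pool.Agent.P8H27.CP.Main

/-!
# The cone conjecture for finite quotients of products

Every smooth projective variety `X` with numerically trivial canonical class is, by the theorem of
Beauville and Bogomolov, the quotient `X' / Φ` of a product `X'` of an abelian variety, irreducible
symplectic varieties and simply connected strict Calabi-Yau varieties by a finite group `Φ` which acts
freely; and `N¹(X')` is the direct sum of the groups `N¹` of the factors, because only the abelian
factor has irregularity. The theorem below says that the nef cone conjecture for the factors implies the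
nef cone conjecture for `X'` and for `X`. For abelian varieties and for irreducible symplectic varieties
the conjecture is known. So the conjecture is reduced to the simply connected strict Calabi-Yau
varieties, and it holds for all `X` without such factors.

The proof. The cone `Nef(X') ∩ Eff(X')` is the product of the cones of the factors, and an automorphism
of a factor extends to `X'` and acts on the corresponding summand of `N¹(X')`. So the translates of the
sum of the fundamental cones of the factors cover `Nef(X') ∩ Eff(X')`. The group `Aut(X')` can be larger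
than the product of the groups of the factors; a fundamental domain for it is obtained from the covering
by the theorem of Looijenga. The passage to the quotients is the theorem
`Pool.Agent.P8H34.descend` of `GaloisQuotients`.

The definition `Decomposes` is in `Pool.Agent.P8H27.CP.Defs`; `IsQuot` and `KernelType` in
`Pool.Agent.P8H34.Defs`; `PicardBasis`, `effCone`, `nefCone`, `IsPullBack`, `IsAut` and `HasFundDomain`
in `Pool.Agent.N110.CC.Defs`; `FiniteMap` in `Pool.Agent.N110.CC.RDefs`; `NormalModel`, `localRing` and
`IsPrimeDivisor` in `Pool.Agent.Y172.Defs`; `LiesOver` in `Pool.Agent.R887.Defs`.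
-/

set_option autoImplicit false

open FF Pool.Agent.W602.GT Pool.Agent.Y172 Pool.Agent.R887
open Pool.Agent.N110 Pool.Agent.N110.CC Pool.Agent.P8H34 Pool.Agent.P8H27.CP

/-- Let `X_1, …, X_r` be normal projective varieties (with generic points `y i`, of dimensions `n i`),
and let `X'` be a normal projective variety of dimension `n' ≥ 1` (with generic point `y'`) which
decomposes into the `X_i` in the sense of `Decomposes`: for instance the product of the `X_i`, if
`N¹(X') = ⊕ N¹(X_i)`. Let the nef cone of `X'` have interior points in `N¹(X') = ℝ ^ ρ'`, as is the case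
for smooth `X'`. The vectors `c i P` and `c' Q` are the classes of the prime divisors of `X_i` and `X'`.

Suppose that for every `i` some rational polyhedral cone is a fundamental domain for the action of
`Aut(X_i)` on `Nef(X_i) ∩ Eff(X_i)`. Then

* some rational polyhedral cone is a fundamental domain for the action of `Aut(X')` on
  `Nef(X') ∩ Eff(X')`;
* if the group of the automorphisms of `X'` which act trivially on `N¹(X')` has a subgroup `D` of finite
  index, normal in `Aut(X')`, which is commutative and divisible with finitely many elements of each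
  order (for smooth `X'` with numerically trivial canonical class: the connected component of
  `Aut(X')`), then for every quotient `X = X' / Φ` by a finite group `Φ` of automorphisms, some rational
  polyhedral cone is a fundamental domain for the action of `Aut(X)` on `Nef(X) ∩ Eff(X)`. -/
theorem Pool.Agent.Results.MP_e49dc9_ag.ProductQuotients.result
    {r : ℕ} {F : Fin r → Type} [∀ i, Field (F i)] [∀ i, Algebra ℂ (F i)] {N n ρ : Fin r → ℕ}
    {y : ∀ i, Fin (N i + 1) → F i} (hy : ∀ i, NormalModel (y i))
    (_hn : ∀ i, Algebra.trdeg ℂ (F i) = n i)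
    {c : ∀ i, Place ℂ (F i) → Fin (ρ i) → ℤ} (hc : ∀ i, PicardBasis (y i) (c i))
    (hX : ∀ i, HasFundDomain {T | ∃ ψ, IsAut ψ (y i) ∧ IsPullBack (y i) (c i) ψ T}
      (nefCone (y i) (n i) (c i) ∩ effCone (y i) (c i)))
    {K' : Type} [Field K'] [Algebra ℂ K'] {N' n' ρ' : ℕ} {y' : Fin (N' + 1) → K'}
    (hy' : NormalModel y') (hn' : Algebra.trdeg ℂ K' = n') (hn0 : 0 < n')
    {c' : Place ℂ K' → Fin ρ' → ℤ} (hc' : PicardBasis y' c')
    (hint : (interior (nefCone y' n' c')).Nonempty)
    {ι : ∀ i, F i →ₐ[ℂ] K'} {e : (Σ i, Fin (ρ i)) ≃ Fin ρ'}
    (hdec : Decomposes y c n y' c' n' ι e) :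
    HasFundDomain {T | ∃ ψ, IsAut ψ y' ∧ IsPullBack y' c' ψ T} (nefCone y' n' c' ∩ effCone y' c') ∧
    ∀ (Aut' D : Subgroup (K' ≃ₐ[ℂ] K')), (∀ ψ, ψ ∈ Aut' ↔ IsAut ψ y') →
      KernelType y' c' Aut' D →
      ∀ (K : Type) [Field K] [Algebra ℂ K] (M σ : ℕ) (x : Fin (M + 1) → K), NormalModel x →
      Algebra.trdeg ℂ K = n' →
      ∀ d : Place ℂ K → Fin σ → ℤ, PicardBasis x d →
      ∀ (π : K →ₐ[ℂ] K') (Φ : Subgroup (K' ≃ₐ[ℂ] K')), IsQuot π Φ x y' →
      HasFundDomain {T | ∃ ψ, IsAut ψ x ∧ IsPullBack x d ψ T} (nefCone x n' d ∩ effCone x d) := by
  have h1 := product hy hy' hn' hn0 hc hc' hint hdec hX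
  refine ⟨h1, ?_⟩
  intro Aut' D hAut' hD K _ _ M σ x hx hn d hd π Φ hQ
  have h : Aut' = autGroup y' := Subgroup.ext hAut'
  subst h
  exact descend hx hy' hn hn' hn0 hd hc' hQ hint hD h1
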